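import Mathlib
import Pool.Agent.U964.ML.Curve

/-!
# Integer points with a power quotient on the curves with one place at infinity

The starting file `AllPlaneCurves` has a polynomial bound for the integer points on all plane curves except
for those with exactly one place at infinity, of degree one or two. A curve with exactly one place at
infinity, of degree one, has an equation

`c (a y ^ p - b x ^ q) ^ k + R(x, y) = 0`,

with integers `a`, `b`, `c ≠ 0` and a polynomial `R` all monomials of which have a weight smaller than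
`k p q`, where `x` has the weight `p` and `y` the weight `q`. Here we fix only `p`, `q`, `k` and a finite set
`S` of primes: `a`, `b`, `c` and `R` are arbitrary.

On a large integer point of such a curve `a y ^ p / (b x ^ q)` is near `1`. We consider the points at which this
quotient is an `n`-th power up to the primes of `S`, for instance the points with `x = s X ^ n` and
`y = t Y ^ n`, where `s`, `t` (and `a`, `b`) are composed of primes of `S`. For `n ≥ N`, with `N` dependent only on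
`p`, `q`, `k`, `S` (and `κ > 1`), they satisfy a polynomial bound in the sum `L` of the absolute values of the
coefficients of `R`, with an exponent that does not depend on `n`; only the points on the curve
`a y ^ p = b x ^ q` are excluded. If all the weights of `R` are at most `k p q - g` the bound is
`|x| ^ g ≤ (B L ^ κ) ^ p`, `|y| ^ g ≤ (B L ^ κ) ^ q`; for `y ^ m = f(x)` this is `|x| ≤ B L ^ κ`.

Consequently (second part) for `n ≥ N (1 + log L)` all the integer points `(X, Y)`, `X Y ≠ 0`, of all the curves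
`F(s X ^ n, t Y ^ n) = 0` have `|X| ≤ 1` and `|Y| ≤ 1`, or `a (t Y ^ n) ^ p = b (s X ^ n) ^ q`.

The proof is by a lower bound for linear forms in the logarithms of rational numbers which is linear in the
height of the number whose coefficient is `n` (`U964.ML`).
-/

set_option autoImplicit false

namespace Pool.Agent.Results.MP_821da1_nt.AlmostPowers

open MvPolynomial

/-- up to the sign and up to the primes in `S`, the rational number `r` is an `n`-th power -/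
def IsAlmostPower (S : Finset ℕ) (n : ℕ) (r : ℚ) : Prop :=
  ∀ ℓ : ℕ, ℓ.Prime → ℓ ∉ S → (n : ℤ) ∣ padicValRat ℓ r

/-- all prime factors of `s` are in `S` -/
def IsSInteger (S : Finset ℕ) (s : ℤ) : Prop := s ≠ 0 ∧ ∀ ℓ : ℕ, ℓ.Prime → (ℓ : ℤ) ∣ s → ℓ ∈ S

/-- the polynomial `c (a y ^ p - b x ^ q) ^ k + R(x, y)` -/
noncomputable def curve (p q k : ℕ) (a b c : ℤ) (R : MvPolynomial (Fin 2) ℤ) :
    MvPolynomial (Fin 2) ℤ :=
  C c * (C a * X 1 ^ p - C b * X 0 ^ q) ^ k + R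

/-- all monomials of `R` have a weight at most `k p q - g`, where `x` has the weight `p` and `y` has the
weight `q` -/
def WeightGap (p q k g : ℕ) (R : MvPolynomial (Fin 2) ℤ) : Prop :=
  ∀ m ∈ R.support, p * m 0 + q * m 1 + g ≤ k * (p * q)

/-- the sum of the absolute values of the coefficients -/
def len (R : MvPolynomial (Fin 2) ℤ) : ℕ := ∑ m ∈ R.support, (R.coeff m).natAbs

lemma eval_curve (p q k : ℕ) (a b c : ℤ) (R : MvPolynomial (Fin 2) ℤ) (x y : ℤ) :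
    eval ![x, y] (curve p q k a b c R) = c * (a * y ^ p - b * x ^ q) ^ k + eval ![x, y] R := by
  simp [curve]

/-- the bound -/
lemma main (S : Finset ℕ) (p q k g : ℕ) (hp : 1 ≤ p) (hq : 1 ≤ q) (hk : 1 ≤ k) (hg : 1 ≤ g)
    (κ : ℝ) (hκ : 1 < κ) : ∃ N B : ℕ, 1 ≤ B ∧ ∀ a b c : ℤ, a ≠ 0 → b ≠ 0 → c ≠ 0 →
      ∀ R : MvPolynomial (Fin 2) ℤ, WeightGap p q k g R →
      ∀ x y : ℤ, x ≠ 0 → y ≠ 0 → eval ![x, y] (curve p q k a b c R) = 0 →
      a * y ^ p ≠ b * x ^ q → ∀ n : ℕ, N ≤ n →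
      IsAlmostPower S n ((a * (y : ℚ) ^ p) / (b * (x : ℚ) ^ q)) →
        |(x : ℝ)| ^ g ≤ (B * (len R : ℝ) ^ κ) ^ p ∧ |(y : ℝ)| ^ g ≤ (B * (len R : ℝ) ^ κ) ^ q := by
  obtain ⟨N, B, hB, h⟩ := Pool.Agent.U964.ML.curve S p q k g hp hq hk hg κ hκ
  refine ⟨N, B, hB, ?_⟩
  intro a b c ha hb hc R hR x y hx hy hF hne n hn hAP
  rw [eval_curve] at hF
  refine h a b c ha hb hc R hR x y hx hy hF hne n hn ?_
  have e : (((a * y ^ p : ℤ) : ℚ) / ((b * x ^ q : ℤ) : ℚ)) =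
      (a * (y : ℚ) ^ p) / (b * (x : ℚ) ^ q) := by
    push_cast
    rfl
  rw [e]
  exact hAP

/-- the quotient at the point `(s X ^ n, t Y ^ n)` -/
lemma almost {S : Finset ℕ} {n p q : ℕ} {s t a b U V : ℤ} (hs : IsSInteger S s)
    (ht : IsSInteger S t) (ha : IsSInteger S a) (hb : IsSInteger S b) (hU : U ≠ 0) (hV : V ≠ 0) :
    IsAlmostPower S n ((a * ((t * V ^ n : ℤ) : ℚ) ^ p) / (b * ((s * U ^ n : ℤ) : ℚ) ^ q)) := by
  intro ℓ hℓ hℓS
  have : Fact ℓ.Prime := ⟨hℓ⟩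
  have hval : ∀ z : ℤ, IsSInteger S z → padicValRat ℓ (z : ℚ) = 0 := by
    intro z hz
    rw [padicValRat.of_int, padicValInt.eq_zero_of_not_dvd]
    · rfl
    · exact fun hc => hℓS (hz.2 ℓ hℓ hc)
  have hsq : (s : ℚ) ≠ 0 := by exact_mod_cast hs.1
  have htq : (t : ℚ) ≠ 0 := by exact_mod_cast ht.1
  have haq : (a : ℚ) ≠ 0 := by exact_mod_cast ha.1
  have hbq : (b : ℚ) ≠ 0 := by exact_mod_cast hb.1
  have hUq : (U : ℚ) ≠ 0 := by exact_mod_cast hU
  have hVq : (V : ℚ) ≠ 0 := by exact_mod_cast hV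
  have hVn : (V : ℚ) ^ n ≠ 0 := pow_ne_zero _ hVq
  have hUn : (U : ℚ) ^ n ≠ 0 := pow_ne_zero _ hUq
  have htV : (t : ℚ) * (V : ℚ) ^ n ≠ 0 := mul_ne_zero htq hVn
  have hsU : (s : ℚ) * (U : ℚ) ^ n ≠ 0 := mul_ne_zero hsq hUn
  have e1 : padicValRat ℓ ((a : ℚ) * ((t : ℚ) * (V : ℚ) ^ n) ^ p) =
      p * (n * padicValRat ℓ (V : ℚ)) := by
    rw [padicValRat.mul haq (pow_ne_zero _ htV), padicValRat.pow, padicValRat.mul htq hVn,
      padicValRat.pow, hval t ht, hval a ha, zero_add, zero_add]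
  have e2 : padicValRat ℓ ((b : ℚ) * ((s : ℚ) * (U : ℚ) ^ n) ^ q) =
      q * (n * padicValRat ℓ (U : ℚ)) := by
    rw [padicValRat.mul hbq (pow_ne_zero _ hsU), padicValRat.pow, padicValRat.mul hsq hUn,
      padicValRat.pow, hval s hs, hval b hb, zero_add, zero_add]
  have e3 : ((a * ((t * V ^ n : ℤ) : ℚ) ^ p) / (b * ((s * U ^ n : ℤ) : ℚ) ^ q)) =
      ((a : ℚ) * ((t : ℚ) * (V : ℚ) ^ n) ^ p) / ((b : ℚ) * ((s : ℚ) * (U : ℚ) ^ n) ^ q) := by
    push_cast
    rfl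
  rw [e3, padicValRat.div (mul_ne_zero haq (pow_ne_zero _ htV))
    (mul_ne_zero hbq (pow_ne_zero _ hsU)), e1, e2]
  exact ⟨p * padicValRat ℓ (V : ℚ) - q * padicValRat ℓ (U : ℚ), by ring⟩

/-- the last step -/
lemma le_one {s U : ℤ} {n p : ℕ} {B L : ℝ} (hs : s ≠ 0) (hB : 1 ≤ B) (hL : 1 ≤ L)
    (h : |((s * U ^ n : ℤ) : ℝ)| ^ 1 ≤ (B * L ^ (2 : ℝ)) ^ p)
    (hn : 2 * (p * (Real.log B + 2 * Real.log L)) < n) : |U| ≤ 1 := by
  by_contra hcon
  rw [not_le] at hcon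
  have hU2 : 2 ≤ |U| := by omega
  have hs1 : (1:ℝ) ≤ |(s:ℝ)| := by
    have := Int.one_le_abs hs
    exact_mod_cast this
  have hUr : (2:ℝ) ≤ |(U:ℝ)| := by exact_mod_cast hU2
  have h2 : (2:ℝ) ^ n ≤ (B * L ^ (2 : ℝ)) ^ p := by
    refine le_trans ?_ h
    rw [pow_one]
    push_cast
    rw [abs_mul, abs_pow]
    have h3 : (2:ℝ) ^ n ≤ |(U:ℝ)| ^ n := pow_le_pow_left₀ (by norm_num) hUr n
    have h4 : (0:ℝ) ≤ |(U:ℝ)| ^ n := by positivity
    nlinarith
  have hL0 : 0 < L := by linarith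
  have hB0 : 0 < B := by linarith
  have h3 : (n:ℝ) * Real.log 2 ≤ p * (Real.log B + 2 * Real.log L) := by
    have h5 := Real.log_le_log (by positivity) h2
    rwa [Real.log_pow, Real.log_pow, Real.log_mul hB0.ne' (Real.rpow_pos_of_pos hL0 _).ne',
      Real.log_rpow hL0] at h5
  have h4 := Pool.Agent.U964.ML.log_two_gt
  have h5 : (0:ℝ) ≤ n := Nat.cast_nonneg _
  nlinarith

theorem result (S : Finset ℕ) (p q k : ℕ) (hp : 1 ≤ p) (hq : 1 ≤ q) (hk : 1 ≤ k) :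
    (∀ g : ℕ, 1 ≤ g → ∀ κ : ℝ, 1 < κ → ∃ N B : ℕ, ∀ a b c : ℤ, a ≠ 0 → b ≠ 0 → c ≠ 0 →
      ∀ R : MvPolynomial (Fin 2) ℤ, WeightGap p q k g R →
      ∀ x y : ℤ, x ≠ 0 → y ≠ 0 → eval ![x, y] (curve p q k a b c R) = 0 →
      a * y ^ p ≠ b * x ^ q → ∀ n : ℕ, N ≤ n →
      IsAlmostPower S n ((a * (y : ℚ) ^ p) / (b * (x : ℚ) ^ q)) →
        |(x : ℝ)| ^ g ≤ (B * (len R : ℝ) ^ κ) ^ p ∧ |(y : ℝ)| ^ g ≤ (B * (len R : ℝ) ^ κ) ^ q) ∧
    ∃ N : ℕ, ∀ a b c : ℤ, IsSInteger S a → IsSInteger S b → c ≠ 0 →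
      ∀ R : MvPolynomial (Fin 2) ℤ, WeightGap p q k 1 R →
      ∀ s t : ℤ, IsSInteger S s → IsSInteger S t →
      ∀ n : ℕ, N * (1 + Real.log (len R)) ≤ n → ∀ U V : ℤ, U ≠ 0 → V ≠ 0 →
      eval ![s * U ^ n, t * V ^ n] (curve p q k a b c R) = 0 →
      a * (t * V ^ n) ^ p = b * (s * U ^ n) ^ q ∨ (|U| ≤ 1 ∧ |V| ≤ 1) := by
  refine ⟨fun g hg κ hκ => ?_, ?_⟩
  · obtain ⟨N, B, -, h⟩ := main S p q k g hp hq hk hg κ hκ
    exact ⟨N, B, h⟩
  · obtain ⟨N, B, hB, h⟩ := main S p q k 1 hp hq hk le_rfl 2 (by norm_num)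
    have hBr : (1:ℝ) ≤ B := by exact_mod_cast hB
    have hlB : 0 ≤ Real.log B := Real.log_nonneg hBr
    obtain ⟨N1, hN1⟩ : ∃ N1 : ℕ, 2 * (((p:ℝ) + q) * (Real.log B + 2)) + 1 ≤ (N1 : ℝ) :=
      exists_nat_ge _
    refine ⟨N + N1, ?_⟩
    intro a b c ha hb hc R hR s t hs ht n hn U V hU hV hF
    by_cases heq : a * (t * V ^ n) ^ p = b * (s * U ^ n) ^ q
    · exact Or.inl heq
    right
    have hx0 : s * U ^ n ≠ 0 := mul_ne_zero hs.1 (pow_ne_zero _ hU)
    have hy0 : t * V ^ n ≠ 0 := mul_ne_zero ht.1 (pow_ne_zero _ hV)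
    have hl0 : 0 ≤ Real.log (len R) := Real.log_natCast_nonneg _
    have hN0 : (0:ℝ) ≤ N := Nat.cast_nonneg _
    have hN10 : (0:ℝ) ≤ N1 := Nat.cast_nonneg _
    have hNn : N ≤ n := by
      have h1 : (N : ℝ) ≤ n := by
        refine le_trans ?_ hn
        push_cast
        nlinarith
      exact_mod_cast h1
    have h1 := h a b c ha.1 hb.1 hc R hR (s * U ^ n) (t * V ^ n) hx0 hy0 hF heq n hNn
      (almost hs ht ha hb hU hV)
    have hlen : 1 ≤ len R := by
      by_contra hc0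
      have h0 : len R = 0 := by omega
      have h2 := h1.1
      rw [h0, Nat.cast_zero, Real.zero_rpow (by norm_num), mul_zero, zero_pow (by omega),
        pow_one] at h2
      have h3 : (1:ℝ) ≤ |((s * U ^ n : ℤ) : ℝ)| := by
        have := Int.one_le_abs hx0
        exact_mod_cast this
      linarith
    have hL1 : (1:ℝ) ≤ len R := by exact_mod_cast hlen
    have hpr : (1:ℝ) ≤ p := by exact_mod_cast hp
    have hqr : (1:ℝ) ≤ q := by exact_mod_cast hq
    obtain ⟨l, hl⟩ : ∃ l : ℝ, l = Real.log (len R) := ⟨_, rfl⟩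
    have h6 : (2 * (((p:ℝ) + q) * (Real.log B + 2)) + 1) * (1 + l) ≤ n := by
      refine le_trans ?_ (hl ▸ hn)
      push_cast
      rw [← hl] at hl0
      nlinarith
    rw [← hl] at hl0
    have hA : (Real.log B + 2 * l) ≤ (Real.log B + 2) * (1 + l) := by nlinarith
    have hA0 : 0 ≤ (Real.log B + 2) * (1 + l) := by positivity
    constructor
    · refine le_one hs.1 hBr hL1 h1.1 ?_
      rw [← hl]
      nlinarith
    · refine le_one ht.1 hBr hL1 h1.2 ?_
      rw [← hl]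
      nlinarith

end Pool.Agent.Results.MP_821da1_nt.AlmostPowers
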