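import Mathlib
import Pool.Agent.U964.ML.Expl

/-!
# An explicit bound for all integer points on the curves whose top form is a power of a binomial of high degree

Consider the plane curves

`c (a y ^ (n p) - b x ^ (n q)) ^ k + R(x, y) = 0`

with integers `a`, `b`, `c ≠ 0`, `|a| ≠ |b|`, of absolute values `|a|, |b| ≤ exp H`, and a polynomial `R` with
integer coefficients all monomials of which have the weight at most `(1 - δ) n k p q`, where `x` has the weight `p`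
and `y` the weight `q`, for instance (`p = q = k = c = 1`) the curves `a y ^ n - b x ^ n = R(x, y)`,
`deg R ≤ (1 - δ) n`, or `y ^ (n p) = b x ^ (n q) + R(x, y)`. Let `L` be the sum of the absolute values of the
coefficients of `R` (or `1` if `R = 0`).

Suppose that `10 ^ 7 H (2 + log n) ^ 2 ≤ δ n`. Then ALL integer points satisfy the explicit bound

`|x| ^ (n q) ≤ (3 L) ^ (4 / δ)`, `|y| ^ (n p) ≤ (3 L) ^ (4 / δ)`,

the exponent of which does not depend on the degree; if `(3 L) ^ (4 / δ) < 2 ^ n` they satisfy `|x|, |y| ≤ 1`.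
The proof is by a lower bound for `n log (Y / X) - log (b / a)` which is linear in the height of `Y / X`
and explicit (`U964.ML.Two`).

For these curves (`a / b` not a power) there is only one place at infinity, of a degree divisible by large
divisors of `n`; the starting file `AllPlaneCurves` has for them a bound with a constant that is not explicit
and depends on the degree and on the field generated by the root of order `n` of `b / a`.
-/

set_option autoImplicit false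

namespace Pool.Agent.Results.MP_821da1_nt.BinomialTopForm

open MvPolynomial

/-- the polynomial `c (a y ^ (n p) - b x ^ (n q)) ^ k + R(x, y)` -/
noncomputable def curve (p q k n : ℕ) (a b c : ℤ) (R : MvPolynomial (Fin 2) ℤ) :
    MvPolynomial (Fin 2) ℤ :=
  C c * (C a * X 1 ^ (n * p) - C b * X 0 ^ (n * q)) ^ k + R

/-- the sum of the absolute values of the coefficients, and `1` for the polynomial `0` -/
def length (R : MvPolynomial (Fin 2) ℤ) : ℕ := max (∑ m ∈ R.support, (R.coeff m).natAbs) 1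

/-- the weights of the monomials of `R` are at most `K`, where `x` has the weight `p` and `y` the
weight `q` -/
def WeightLe (p q K : ℕ) (R : MvPolynomial (Fin 2) ℤ) : Prop :=
  ∀ m ∈ R.support, p * m 0 + q * m 1 ≤ K

theorem result (p q k n K H : ℕ) (hp : 1 ≤ p) (hq : 1 ≤ q) (hk : 1 ≤ k) (hn1 : 1 ≤ n) (hH : 1 ≤ H)
    (δ : ℝ) (hδ : 0 < δ) (hδ1 : δ ≤ 1) (hK : (K : ℝ) ≤ (1 - δ) * (n * k * p * q))
    (hn : 10 ^ 7 * H * (2 + Real.log n) ^ 2 ≤ δ * n) (a b c : ℤ) (ha : a ≠ 0) (hb : b ≠ 0)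
    (hc : c ≠ 0) (hab : |a| ≠ |b|) (haH : Real.log |(a : ℝ)| ≤ H) (hbH : Real.log |(b : ℝ)| ≤ H)
    (R : MvPolynomial (Fin 2) ℤ) (hR : WeightLe p q K R) (x y : ℤ)
    (hF : eval ![x, y] (curve p q k n a b c R) = 0) :
    (|(x : ℝ)| ^ (n * q) ≤ (3 * length R : ℝ) ^ (4 / δ) ∧
      |(y : ℝ)| ^ (n * p) ≤ (3 * length R : ℝ) ^ (4 / δ)) ∧
    ((3 * length R : ℝ) ^ (4 / δ) < 2 ^ n → |x| ≤ 1 ∧ |y| ≤ 1) := by
  have hL1n : 1 ≤ length R := le_max_right _ _
  obtain ⟨L, hL⟩ : ∃ L : ℝ, L = (length R : ℝ) := ⟨_, rfl⟩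
  have hL1 : 1 ≤ L := by rw [hL]; exact_mod_cast hL1n
  rw [← hL]
  have main : |(x : ℝ)| ^ (n * q) ≤ (3 * L) ^ (4 / δ) ∧ |(y : ℝ)| ^ (n * p) ≤ (3 * L) ^ (4 / δ) := by
    obtain ⟨U, hU⟩ : ∃ U : ℕ, U = x.natAbs ^ q := ⟨_, rfl⟩
    obtain ⟨V, hV⟩ : ∃ V : ℕ, V = y.natAbs ^ p := ⟨_, rfl⟩
    have hUr : (U:ℝ) = |(x:ℝ)| ^ q := by rw [hU]; push_cast; rw [Nat.cast_natAbs, Int.cast_abs]
    have hVr : (V:ℝ) = |(y:ℝ)| ^ p := by rw [hV]; push_cast; rw [Nat.cast_natAbs, Int.cast_abs]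
    obtain ⟨M, hM⟩ : ∃ M : ℝ, M = ((max U V : ℕ) : ℝ) := ⟨_, rfl⟩
    have hUM : (U:ℝ) ≤ M := by rw [hM]; exact_mod_cast le_max_left U V
    have hVM : (V:ℝ) ≤ M := by rw [hM]; exact_mod_cast le_max_right U V
    have hor : (U:ℝ) = M ∨ (V:ℝ) = M := by
      rw [hM]
      rcases le_total U V with h | h
      · right; rw [max_eq_right h]
      · left; rw [max_eq_left h]
    have e1 : |(x : ℝ)| ^ (n * q) = (U:ℝ) ^ n := by rw [hUr, ← pow_mul, mul_comm]
    have e2 : |(y : ℝ)| ^ (n * p) = (V:ℝ) ^ n := by rw [hVr, ← pow_mul, mul_comm]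
    rw [e1, e2]
    have hpos : (0:ℝ) ≤ (3 * L) ^ (4 / δ) := Real.rpow_nonneg (by linarith) _
    suffices h : M ^ n ≤ (3 * L) ^ (4 / δ) from
      ⟨(pow_le_pow_left₀ (Nat.cast_nonneg _) hUM n).trans h,
        (pow_le_pow_left₀ (Nat.cast_nonneg _) hVM n).trans h⟩
    rcases Nat.eq_zero_or_pos (max U V) with h0 | h0
    · rw [hM, h0, Nat.cast_zero, zero_pow (by omega)]
      exact hpos
    have hM1 : 1 ≤ M := by rw [hM]; exact_mod_cast h0
    have hM0 : 0 < M := by linarith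
    have hpr : (0:ℝ) < p := by exact_mod_cast hp
    have hqr : (0:ℝ) < q := by exact_mod_cast hq
    have hkr : (1:ℝ) ≤ k := by exact_mod_cast hk
    have hpq0 : (0:ℝ) < (p:ℝ) * q := by positivity
    obtain ⟨T, hT⟩ : ∃ T : ℝ, T = M ^ (1 / ((p:ℝ) * q)) := ⟨_, rfl⟩
    have hT1 : 1 ≤ T := by rw [hT]; exact Real.one_le_rpow hM1 (by positivity)
    have hT0 : 0 < T := by linarith
    have hTM : T ^ (p * q) = M := by
      rw [hT, ← Real.rpow_natCast, ← Real.rpow_mul hM0.le]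
      push_cast
      rw [one_div, inv_mul_cancel₀ hpq0.ne', Real.rpow_one]
    have hxT : |(x:ℝ)| ≤ T ^ p := by
      refine le_of_pow_le_pow_left₀ (by omega) (by positivity) (n := q) ?_
      rw [← pow_mul, hTM, ← hUr]
      exact hUM
    have hyT : |(y:ℝ)| ≤ T ^ q := by
      refine le_of_pow_le_pow_left₀ (by omega) (by positivity) (n := p) ?_
      rw [← pow_mul, mul_comm q p, hTM, ← hVr]
      exact hVM
    have heval := Pool.Agent.U964.ML.eval_le R x y T hT1 p q K hxT hyT hR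
    have hlen : (Pool.Agent.U964.ML.len R : ℝ) ≤ L := by
      rw [hL]
      exact_mod_cast le_max_left _ _
    obtain ⟨Z, hZ⟩ : ∃ Z : ℝ, Z = M ^ ((n:ℝ) * (1 - δ)) := ⟨_, rfl⟩
    have hZ0 : 0 < Z := by rw [hZ]; exact Real.rpow_pos_of_pos hM0 _
    have hTK : T ^ K ≤ Z ^ k := by
      have h1 : (T:ℝ) ^ K = M ^ ((K:ℝ) / ((p:ℝ) * q)) := by
        rw [hT, ← Real.rpow_natCast, ← Real.rpow_mul hM0.le]
        congr 1
        field_simp
      have h2 : Z ^ k = M ^ ((n:ℝ) * (1 - δ) * k) := by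
        rw [hZ, ← Real.rpow_natCast, ← Real.rpow_mul hM0.le]
      rw [h1, h2]
      refine Real.rpow_le_rpow_of_exponent_le hM1 ?_
      rw [div_le_iff₀ hpq0]
      refine hK.trans (le_of_eq ?_)
      ring
    have hF' : (c:ℝ) * ((a:ℝ) * (y:ℝ) ^ (n * p) - b * (x:ℝ) ^ (n * q)) ^ k =
        -((eval ![x, y] R : ℤ) : ℝ) := by
      have h1 : c * (a * y ^ (n * p) - b * x ^ (n * q)) ^ k + eval ![x, y] R = 0 := by
        have h2 : eval ![x, y] (curve p q k n a b c R) =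
            c * (a * y ^ (n * p) - b * x ^ (n * q)) ^ k + eval ![x, y] R := by simp [curve]
        rw [← h2]
        exact hF
      have h2 := congrArg (fun z : ℤ => (z : ℝ)) h1
      push_cast at h2
      linarith
    have hclose : |((a.natAbs : ℕ) : ℝ) * (V:ℝ) ^ n - ((b.natAbs : ℕ) : ℝ) * (U:ℝ) ^ n| ≤ L * Z := by
      have h1 : |((a.natAbs : ℕ) : ℝ) * (V:ℝ) ^ n - ((b.natAbs : ℕ) : ℝ) * (U:ℝ) ^ n| ≤
          |(a:ℝ) * (y:ℝ) ^ (n * p) - b * (x:ℝ) ^ (n * q)| := by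
        rw [Nat.cast_natAbs, Nat.cast_natAbs, Int.cast_abs, Int.cast_abs, ← e1, ← e2, ← abs_pow,
          ← abs_pow, ← abs_mul, ← abs_mul]
        exact abs_abs_sub_abs_le _ _
      refine h1.trans ?_
      refine le_of_pow_le_pow_left₀ (by omega) (by positivity) (n := k) ?_
      have hc1 : (1:ℝ) ≤ |(c:ℝ)| := by
        have := Int.one_le_abs hc
        exact_mod_cast this
      calc |(a:ℝ) * (y:ℝ) ^ (n * p) - b * (x:ℝ) ^ (n * q)| ^ k
          ≤ |(c:ℝ)| * |(a:ℝ) * (y:ℝ) ^ (n * p) - b * (x:ℝ) ^ (n * q)| ^ k :=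
            le_mul_of_one_le_left (by positivity) hc1
        _ = |((eval ![x, y] R : ℤ) : ℝ)| := by rw [← abs_pow, ← abs_mul, hF', abs_neg]
        _ ≤ Pool.Agent.U964.ML.len R * T ^ K := heval
        _ ≤ L * Z ^ k := by gcongr
        _ ≤ L ^ k * Z ^ k := by
            have : L ≤ L ^ k := le_self_pow₀ hL1 (by omega)
            gcongr
        _ = (L * Z) ^ k := by rw [mul_pow]
    have ha1 : 1 ≤ a.natAbs := Int.natAbs_pos.2 ha
    have hb1 : 1 ≤ b.natAbs := Int.natAbs_pos.2 hb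
    have hne : a.natAbs ≠ b.natAbs := by
      intro h
      apply hab
      rw [Int.abs_eq_natAbs, Int.abs_eq_natAbs, h]
    rw [hZ] at hclose
    exact Pool.Agent.U964.ML.expl a.natAbs b.natAbs U V n H M δ L ha1 hb1 hne hH
      (by rw [Nat.cast_natAbs, Int.cast_abs]; exact haH)
      (by rw [Nat.cast_natAbs, Int.cast_abs]; exact hbH) hUM hVM hor hM1 hδ hδ1 hn1 hn hL1 hclose
  refine ⟨main, fun hsmall => ?_⟩
  have key : ∀ (z : ℤ) (r : ℕ), 1 ≤ r → |(z : ℝ)| ^ (n * r) ≤ (3 * L) ^ (4 / δ) → |z| ≤ 1 := by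
    intro z r hr hz
    by_contra hcon
    rw [not_le] at hcon
    have h1 : (2:ℝ) ≤ |(z:ℝ)| := by
      have h2 : 2 ≤ |z| := by omega
      exact_mod_cast h2
    have h2 : (2:ℝ) ^ n ≤ |(z:ℝ)| ^ (n * r) := by
      calc (2:ℝ) ^ n ≤ |(z:ℝ)| ^ n := pow_le_pow_left₀ (by norm_num) h1 n
        _ ≤ |(z:ℝ)| ^ (n * r) := pow_le_pow_right₀ (by linarith) (Nat.le_mul_of_pos_right _ hr)
    linarith
  exact ⟨key x q hq main.1, key y p hp main.2⟩

end Pool.Agent.Results.MP_821da1_nt.BinomialTopForm
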