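import Pool.Agent.U133.SE.Expl

set_option autoImplicit false

/-!
# Superelliptic curves of genus at least 2: an explicit polynomial bound with boundedly many
exceptions in each class

Let `f` be an integer polynomial of degree `d` without repeated roots and with coefficients of
absolute value at most `H`, and let `m ≥ 2` and `(m - 1)(d - 2) ≥ 3`: these are the pairs with `d ≥ 3`
for which the curves `c z ^ m = f(x)` have genus at least 2. Two integers `x`, `y` are in the same
class if `b (x - T) ^ (m - 1) (y - T)` is an `m`-th power in the algebra `ℚ[T]/(f)` for some non-zero
rational `b`, that is (for `f(x) ≠ 0`) if `(y - T)/(x - T)` is a rational number times an `m`-th power.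
For two integral points of the curve with the same image under the map of the `m`-descent the first
coordinates are in the same class. (For `d = 2` exchange the variables: the case `m = 2`.)

The integers `x` of one class satisfy `|x| < (2 H) ^ (64 m d (d ^ 3 + m))`, with at most
`2 m ^ (d - 1)` exceptions. The starting file `AllPlaneCurves` of this folder has a polynomial bound
for the integer points on all the plane curves except those with exactly one place at infinity, of
degree one or two. The curves `z ^ m = f(x)` with `m` and `d` coprime, and all the hyperelliptic curves
to which Runge's method does not apply, are in the case left open there.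

The proof. Let `x`, `y` with `|x| < |y|` be in the same class, and in the same box of a partition of the
class in `2 m ^ (d - 1)` boxes. Then the values of a polynomial `B` with rational coefficients at the
roots `θ` of `f` are a constant multiple of `(1 - θ/x) ^ (1 - 1/m) (1 - θ/y) ^ (1/m)`, with the branches
near `1`. For `|y| < |x| ^ 4` the divided difference of this function at the roots is not zero, because
its first term dominates (file `Near`). For larger `|y|` we choose an order `n ≥ 1` and use the
Hermite-Padé approximation of order `n` of the `d` functions `(1 - θ z) ^ (1 - 1/m)` at `z = 0`,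
simultaneously for all the roots `θ`, in the form of the sums of the residues of
`t ^ i (x - t) ^ (n + 1 - 1/m) / f(t) ^ (n + 1)` (files `Bin`, `Anal`, `Size`, `Ratl`, `HP.Loc`). The zero
estimate (file `Zero`) says that for every `n` one of the `d` forms does not vanish: a linear
functional which kills the forms with `i < d` kills the forms with every `i`, because it kills the
exact differentials. The ranges of `|y|` for the different `n` overlap if `(m - 1)(d - 2) ≥ 3`.
-/

namespace Pool.Agent.Results.MP_821da1_nt.ExplicitBound

open Polynomial Pool.Agent.U133.SE

/-- **At most `2 m ^ (d - 1)` large integers in each class.** -/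
theorem result (m d : ℕ) (hm : 2 ≤ m) (hmd : 3 ≤ (m - 1) * (d - 2)) (H : ℕ) (f : ℤ[X])
    (hfd : f.natDegree = d) (hs : (f.map (Int.castRingHom ℚ)).Separable)
    (hfH : ∀ i, |f.coeff i| ≤ H) (S : Finset ℤ)
    (hS : ∀ x ∈ S, (2 * (H : ℝ)) ^ (64 * m * d * (d ^ 3 + m)) ≤ |(x : ℝ)|)
    (hcl : ∀ x ∈ S, ∀ y ∈ S, PowerClass m f x y) : S.card ≤ 2 * m ^ (d - 1) :=
  mainE m d hm hmd H f hfd hs hfH S hS hcl

end Pool.Agent.Results.MP_821da1_nt.ExplicitBound
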