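import Pool.Agent.U265.SG.Lat
import Pool.Agent.U265.SG.Tot

/-!
# The integer points on ALL integral plane curves near the multiples of a real plane curve

Let `M = (d + 1)(d + 2) / 2` be the number of the monomials of degree at most `d`. A real polynomial of degree at most `d` is a
vector `v` in `ℝ ^ M`. For a sequence `w_m ≥ 1` and `κ < 1` we consider for all large `m` ALL the integral polynomials `F` of degree
at most `d` whose coefficients differ by at most `w_m ^ κ` from those of `w_m v` (`NearMultiples`). The sums of the `w_m ^ (-t)`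
converge for all `t > τ` (`τ = 0` for `w_m = 2 ^ m`, `τ = 1 / c` for `w_m = m ^ c`; for `w_m = m` and `κ > 0` the windows cover a
neighbourhood of the ray through `v`). The explicit bound (`bound`) is `((d + 1) h(F)) ^ (10 ^ 17 * 1296 ^ d * (d + 1) ^ 15)`, where
`h(F)` is the sum of the absolute values of the coefficients. `Good`: `F` has degree `d`, it is irreducible over `ℚ`, and all
integer points of the curve `F = 0` satisfy the explicit bound. Here `d ≥ 4`, so that a general `F` has genus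
`(d - 1)(d - 2) / 2 ≥ 3`.

(1) There are a set `E` of real vectors `v` of Hausdorff dimension at most `(4 d - 2 + τ) / (1 - κ)`, and a set `E'` in the space of
the three leading forms (of the dimension `3 d`) of Hausdorff dimension at most `(3 d - 2 + τ) / (1 - κ)`, such that for all `v`
which are not in `E`, and whose leading forms are not in `E'`, ALL the `F` near the multiples of `v` which are irreducible over `ℚ`
satisfy the explicit bound. (`4 d - 2` is small compared with `M` if `d` is large.)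

(2) Let `V` be a linear space of real polynomials of degree at most `d` with `4 d - 2 + τ < (1 - κ) dim V` and `3 d κ + τ < 1` in which
the three leading forms are arbitrary. For almost all `v ∈ V` all the `F` near the multiples of `v` are `Good`.

(3) In particular, let `S` be a set of at most `d - 2` integer points with `4 d - 2 + τ < (1 - κ) (M - |S|)` and `3 d κ + τ < 1` (for
`d ≥ 6`, `τ = 0` and small `κ` this is true for all `S`). For almost all real curves `v` of degree `d` through the points of `S` all the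
`F` near the multiples of `v` are `Good`.

(4) If `κ > 0` and `v` is a real curve through the points of `S`, `|S| ≤ d`, then for all large `m` there are among the `F` near
`w_m v` curves through the points of `S`; so in (3) there are curves with integer points, which have to be bounded.

(5) If `d ≥ 5` then for all `v` but a set of Hausdorff dimension at most `(M - 2 + τ) / (1 - κ)` all the `F` near the multiples of `v` are
`Good`.

(6) For all `v` but a set of Hausdorff dimension at most `(M - saving + τ) / (1 - κ)` NONE of the `F` near the multiples of `v` has an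
integer point; here `saving = 1` for `d ≥ 6` and `saving = 1 / (2 (9 d ^ 2 + 24 d + 9))` for `d = 4, 5`.

The starting files and the hand-ins of this problem are about almost all `F` in a box, about `F` with coefficients near
multiplicative functions, or about `F` with given leading forms. Here no `F` in the windows is excepted.

The proof: the starting library `R414.DN` (after `H674R3`, `H322R2`) bounds the number of the exceptional `F` with given four leading
forms independently of the height; we count the exceptional vectors of three leading forms alone (`few_B3`), and use covers in the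
definition of the Hausdorff measure by the cubes of the `v` for which an exceptional vector is in a window
(`Pool.Agent.U265.GM`, `Pool.Agent.U265.SG`). Parts (5) and (6) use the power savings of `R414.DN`, `R414.DS` and `N415.PC`.
-/

set_option autoImplicit false

namespace Pool.Agent.Results.MP_821da1_nt.NearRealCurves

open Filter MeasureTheory Pool.Agent.R414.DN Pool.Agent.U265.SG

/-- The explicit bound `((d + 1) h(F)) ^ (10 ^ 17 * 1296 ^ d * (d + 1) ^ 15)`, where `h(F)` is the sum of the absolute values of the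
coefficients of `F`. -/
def bound (d : ℕ) (F : MvPolynomial (Fin 2) ℤ) : ℕ :=
  ((d + 1) * ∑ m ∈ F.support, (F.coeff m).natAbs) ^ (10 ^ 17 * 1296 ^ d * (d + 1) ^ 15)

/-- All integer points of the curve `F = 0` satisfy the explicit bound. -/
def Bounded (d : ℕ) (F : MvPolynomial (Fin 2) ℤ) : Prop :=
  ∀ x y : ℤ, MvPolynomial.eval ![x, y] F = 0 → max x.natAbs y.natAbs ≤ bound d F

/-- `F` is irreducible over `ℚ`. -/
def Irr (F : MvPolynomial (Fin 2) ℤ) : Prop := Irreducible (MvPolynomial.map (Int.castRingHom ℚ) F)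

/-- `F` has degree `d`, is irreducible over `ℚ`, and its integer points satisfy the explicit bound. -/
def Good (d : ℕ) (F : MvPolynomial (Fin 2) ℤ) : Prop := F.totalDegree = d ∧ Irr F ∧ Bounded d F

/-- For all large `m` ALL integral polynomials `F = ∑ a_(k,i) x ^ i y ^ (k - i)` of degree at most `d` with
`|a_(k,i) - w_m v_(k,i)| ≤ w_m ^ κ` for all `(k, i)` have the property `Q`. -/
def NearMultiples {d : ℕ} (Q : MvPolynomial (Fin 2) ℤ → Prop) (κ : ℝ) (w : ℕ → ℝ) (v : ↥(I d) → ℝ) : Prop :=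
  ∀ᶠ m : ℕ in atTop, ∀ a : ↥(I d) → ℤ, (∀ p, |(a p : ℝ) - w m * v p| ≤ w m ^ κ) → Q (poly a)

/-- The coefficients of the forms of degree `d`, `d - 1`, `d - 2`. -/
def leading {d : ℕ} (v : ↥(I d) → ℝ) : {p : ↥(I d) // d < p.1.1 + 3} → ℝ := fun p => v p.1

/-- The number of the monomials of degree at most `d`. -/
noncomputable def M (d : ℕ) : ℝ := (d + 1) * (d + 2) / 2

/-- `1 ≤ w_m`, and the sums of the `w_m ^ (-t)` converge for all `t > τ`. -/
def Admissible (τ : ℝ) (w : ℕ → ℝ) : Prop := (∀ m, 1 ≤ w m) ∧ ∀ t : ℝ, τ < t → Summable fun m => w m ^ (-t)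

/-- Part (1): two small sets of real polynomials, and of leading forms. -/
def OffSmallSets (d : ℕ) (κ τ : ℝ) (w : ℕ → ℝ) : Prop :=
  ∃ (E : Set (↥(I d) → ℝ)) (E' : Set ({p : ↥(I d) // d < p.1.1 + 3} → ℝ)),
    dimH E ≤ ENNReal.ofReal ((4 * d - 2 + τ) / (1 - κ)) ∧
    dimH E' ≤ ENNReal.ofReal ((3 * d - 2 + τ) / (1 - κ)) ∧
    ∀ v : ↥(I d) → ℝ, v ∉ E → leading v ∉ E' → NearMultiples (fun F => Irr F → Bounded d F) κ w v

/-- The three leading forms of the polynomials of `V` are arbitrary. -/
def ArbitraryLeading {d : ℕ} (V : Submodule ℝ (↥(I d) → ℝ)) : Prop := ∀ u, ∃ v ∈ V, leading v = u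

/-- Almost all `v` in the linear space `V` have the property `Q`. -/
def AlmostAll {d : ℕ} (V : Submodule ℝ (↥(I d) → ℝ)) (Q : (↥(I d) → ℝ) → Prop) : Prop :=
  ∀ᵐ v : V ∂(Measure.addHaar : Measure V), Q (v : ↥(I d) → ℝ)

/-- The `v` without the property `Q` are a set of Hausdorff dimension at most `D`. -/
def OffDimension (d : ℕ) (Q : (↥(I d) → ℝ) → Prop) (D : ℝ) : Prop :=
  dimH {v : ↥(I d) → ℝ | ¬ Q v} ≤ ENNReal.ofReal D

/-- `F` has no integer zero. -/
def NoZero (F : MvPolynomial (Fin 2) ℤ) : Prop := ∀ x y : ℤ, MvPolynomial.eval ![x, y] F ≠ 0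

/-- For all large `m` there is an integral `F` near `w_m v` which vanishes at the points of `S`. -/
def SomeThrough {d : ℕ} (S : Finset (ℤ × ℤ)) (κ : ℝ) (w : ℕ → ℝ) (v : ↥(I d) → ℝ) : Prop :=
  ∀ᶠ m : ℕ in atTop, ∃ a : ↥(I d) → ℤ, (∀ p, |(a p : ℝ) - w m * v p| ≤ w m ^ κ) ∧
    ∀ P ∈ S, MvPolynomial.eval ![P.1, P.2] (poly a) = 0

lemma M_eq (d : ℕ) : (MM d : ℝ) = M d := by
  have h := card_I d
  have h1 : MM d = (I d).card := Fintype.card_coe _
  rw [← h1] at h
  have h2 : (MM d : ℝ) * 2 = ((d : ℝ) + 1) * (d + 2) := by exact_mod_cast h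
  unfold M
  linarith

lemma not_hit {ι : Type} [Fintype ι] {B : Set (ι → ℤ)} {κ : ℝ} {w : ℕ → ℝ} {v : ι → ℝ} (h : ¬ HitI B κ w v) :
    ∀ᶠ m : ℕ in atTop, ∀ a : ι → ℤ, (∀ i, |(a i : ℝ) - w m * v i| ≤ w m ^ κ) → a ∉ B := by
  unfold HitI at h
  rw [not_frequently] at h
  filter_upwards [h] with m hm a ha haB
  exact hm ⟨a, haB, ha⟩

lemma bounded_of {d G : ℕ} (hG : G = 10 ^ 17 * 1296 ^ d * (d + 1) ^ 15) {a : ↥(I d) → ℤ} (h1 : a ∉ BB d G)
    (h2 : Irr (poly a)) (h3 : res a ∉ B3 d) : Bounded d (poly a) := by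
  intro x y hxy
  by_contra h
  apply h1
  refine ⟨h2, ⟨x, y, hxy, ?_⟩, h3⟩
  rw [not_le] at h
  rw [hG]
  exact h

theorem main (d : ℕ) (hd : 4 ≤ d) (κ τ : ℝ) (hκ : κ < 1) (hτ : 0 ≤ τ) (w : ℕ → ℝ) (hw : ∀ m, 1 ≤ w m)
    (hsum : ∀ t : ℝ, τ < t → Summable fun m => w m ^ (-t)) :
    (∃ (E : Set (↥(I d) → ℝ)) (E' : Set ({p : ↥(I d) // d < p.1.1 + 3} → ℝ)),
      dimH E ≤ ENNReal.ofReal ((4 * d - 2 + τ) / (1 - κ)) ∧
      dimH E' ≤ ENNReal.ofReal ((3 * d - 2 + τ) / (1 - κ)) ∧
      ∀ v : ↥(I d) → ℝ, v ∉ E → leading v ∉ E' → NearMultiples (fun F => Irr F → Bounded d F) κ w v) ∧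
    (∀ V : Submodule ℝ (↥(I d) → ℝ), (∀ u, ∃ v ∈ V, leading v = u) →
      4 * d - 2 + τ < (1 - κ) * Module.finrank ℝ V → 3 * d * κ + τ < 1 →
      ∀ᵐ v : V ∂(Measure.addHaar : Measure V), NearMultiples (Good d) κ w (v : ↥(I d) → ℝ)) ∧
    (∀ S : Finset (ℤ × ℤ), S.card + 2 ≤ d → 4 * d - 2 + τ < (1 - κ) * (M d - S.card) → 3 * d * κ + τ < 1 →
      ∀ᵐ v : through d S ∂(Measure.addHaar : Measure (through d S)), NearMultiples (Good d) κ w (v : ↥(I d) → ℝ)) ∧
    (0 < κ → ∀ S : Finset (ℤ × ℤ), S.card ≤ d → ∀ v ∈ through d S, ∀ᶠ m : ℕ in atTop, ∃ a : ↥(I d) → ℤ,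
      (∀ p, |(a p : ℝ) - w m * v p| ≤ w m ^ κ) ∧ ∀ P ∈ S, MvPolynomial.eval ![P.1, P.2] (poly a) = 0) ∧
    (5 ≤ d → dimH {v : ↥(I d) → ℝ | ¬ NearMultiples (Good d) κ w v} ≤ ENNReal.ofReal ((M d - 2 + τ) / (1 - κ))) ∧
    dimH {v : ↥(I d) → ℝ | ¬ NearMultiples (fun F => ∀ x y : ℤ, MvPolynomial.eval ![x, y] F ≠ 0) κ w v} ≤
      ENNReal.ofReal ((M d - saving d + τ) / (1 - κ)) := by
  have hκ' : 0 < 1 - κ := by linarith
  have hd' : (4 : ℝ) ≤ d := by exact_mod_cast hd
  obtain ⟨G, hG⟩ : ∃ G, G = 10 ^ 17 * 1296 ^ d * (d + 1) ^ 15 := ⟨_, rfl⟩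
  obtain ⟨N, hN⟩ : ∃ N, LargeC d G N := by
    rw [hG]
    exact ⟨_, exists_largeC hd⟩
  have hBB := few_BB hd hN
  have hM4 : 4 ≤ M d := by
    have h1 : (5 : ℝ) * 6 ≤ (d + 1) * (d + 2) := mul_le_mul (by linarith) (by linarith) (by norm_num) (by linarith)
    unfold M
    linarith
  have key : ∀ V : Submodule ℝ (↥(I d) → ℝ), (∀ u, ∃ v ∈ V, leading v = u) →
      4 * d - 2 + τ < (1 - κ) * Module.finrank ℝ V → 3 * d * κ + τ < 1 →
      ∀ᵐ v : V ∂(Measure.addHaar : Measure V), NearMultiples (Good d) κ w (v : ↥(I d) → ℝ) := by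
    intro V hV h1 h2
    have g1 := ae_sub (BB d G) (s := (4 * d : ℝ) - (2 : ℕ)) (by push_cast; linarith) hBB hκ hτ w hw hsum V
      (by push_cast; linarith)
    have g2 := ae_proj (fun j : J d => j.1) (B3' d) (s := (3 * d : ℝ) - (1 : ℕ)) (by push_cast; linarith) (few_B3' hd)
      hκ hτ w hw hsum V (fun u => by
        obtain ⟨v, hv, h⟩ := hV u
        exact ⟨v, hv, fun j => congrFun h j⟩) (by
        rw [(card_split (by omega : 3 ≤ d)).1]
        push_cast
        nlinarith)
    filter_upwards [g1, g2] with v h3 h4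
    filter_upwards [not_hit h3, not_hit h4] with m h5 h6 a ha
    have h7 := h5 a ha
    have h8 := h6 (res a) (fun j => ha j.1)
    have h9 : Lead a := by
      by_contra h
      apply h8
      refine Or.inr ?_
      intro h10
      exact h (same_Lead _ _ (same_ext_res a) h10)
    obtain ⟨g3, g4⟩ := good_of_lead (by omega : 1 ≤ d) h9
    exact ⟨g3, g4, bounded_of hG h7 g4 fun h => h8 (Or.inl h)⟩
  refine ⟨⟨{v | HitI (BB d G) κ w v}, {u | HitI (B3 d) κ w u}, ?_, ?_, ?_⟩, key, ?_, ?_, ?_, ?_⟩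
  · have h := dim_hit (BB d G) (s := (4 * d : ℝ) - (2 : ℕ)) (by push_cast; linarith) hBB hκ hτ w hw hsum
    push_cast at h
    exact h
  · have h := dim_hit (B3 d) (s := (3 * d : ℝ) - (2 : ℕ)) (by push_cast; linarith) (few_B3 hd) hκ hτ w hw hsum
    push_cast at h
    exact h
  · intro v h3 h4
    filter_upwards [not_hit h3, not_hit h4] with m h5 h6 a ha hirr
    exact bounded_of hG (h5 a ha) hirr (h6 (res a) (fun j => ha j.1))
  · intro S hS h1 h2
    refine key (through d S) (fun u => ?_) ?_ h2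
    · obtain ⟨v, hv, h⟩ := exists_through hS u
      exact ⟨v, hv, funext h⟩
    · have h3 : (MM d : ℝ) ≤ (Module.finrank ℝ (through d S) : ℝ) + S.card := by exact_mod_cast finrank_through d S
      rw [M_eq] at h3
      nlinarith
  · intro hκ0 S hS v hv
    obtain ⟨C, hC⟩ := exists_near hS
    filter_upwards [eventually_ge hw (by linarith : 0 < τ + 1) (hsum (τ + 1) (by linarith)) hκ0 C] with m hm
    obtain ⟨a, ha, h⟩ := hC v hv (w m)
    exact ⟨a, fun p => (h p).trans hm, fun P hP => by rw [eval_FZ]; exact ha P hP⟩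
  · intro h5
    have h := dim_hit _ (s := (MM d : ℝ) - 2) (by rw [M_eq]; linarith) (few_bads h5 hN) hκ hτ w hw hsum
    rw [M_eq] at h
    refine (dimH_mono ?_).trans h
    intro v hv
    by_contra h3
    apply hv
    filter_upwards [not_hit h3] with m h5 a ha
    by_contra h6
    apply h5 a ha
    intro h7
    apply h6
    refine ⟨h7.1, h7.2.1, fun x y hxy => ?_⟩
    have h8 := h7.2.2 x y hxy
    rw [hG] at h8
    exact h8
  · have h := dim_hit _ (s := (MM d : ℝ) - saving d) (by rw [M_eq]; linarith [saving_le d]) (few_zeros hd) hκ hτ w hw hsum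
    rw [M_eq] at h
    refine (dimH_mono ?_).trans h
    intro v hv
    by_contra h3
    apply hv
    filter_upwards [not_hit h3] with m h5 a ha x y hxy
    exact h5 a ha ⟨x, y, hxy⟩

/-- **The integer points on all integral plane curves near the multiples of real plane curves.** -/
theorem result (d : ℕ) (hd : 4 ≤ d) (κ τ : ℝ) (hκ : κ < 1) (hτ : 0 ≤ τ) (w : ℕ → ℝ) (hw : Admissible τ w) :
    OffSmallSets d κ τ w ∧
    (∀ V : Submodule ℝ (↥(I d) → ℝ), ArbitraryLeading V → 4 * d - 2 + τ < (1 - κ) * Module.finrank ℝ V →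
      3 * d * κ + τ < 1 → AlmostAll V (NearMultiples (Good d) κ w)) ∧
    (∀ S : Finset (ℤ × ℤ), S.card + 2 ≤ d → 4 * d - 2 + τ < (1 - κ) * (M d - S.card) →
      3 * d * κ + τ < 1 → AlmostAll (through d S) (NearMultiples (Good d) κ w)) ∧
    (0 < κ → ∀ S : Finset (ℤ × ℤ), S.card ≤ d → ∀ v ∈ through d S, SomeThrough S κ w v) ∧
    (5 ≤ d → OffDimension d (NearMultiples (Good d) κ w) ((M d - 2 + τ) / (1 - κ))) ∧
    OffDimension d (NearMultiples NoZero κ w) ((M d - saving d + τ) / (1 - κ)) :=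
  main d hd κ τ hκ hτ w hw.1 hw.2

end Pool.Agent.Results.MP_821da1_nt.NearRealCurves
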